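import Pool.Agent.CubLBC.OwnC

set_option autoImplicit false

namespace Pool.Agent.Results.MP_ab51a6_co.CubicalLowerBounds

/-- The nonempty faces of a polytope `P` in `ℝ^N` (with `P` itself): the nonempty sets consisting of
all points of `P` at which some linear functional attains its maximum over `P`. -/
def Faces {N : ℕ} (P : Set (EuclideanSpace ℝ (Fin N))) : Set (Set (EuclideanSpace ℝ (Fin N))) :=
  {F | F.Nonempty ∧ ∃ l : EuclideanSpace ℝ (Fin N) →L[ℝ] ℝ, F = {x | x ∈ P ∧ ∀ y ∈ P, l y ≤ l x}}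

/-- The dimension of a set: the dimension of the space spanned by the differences of its points. -/
noncomputable def dim {N : ℕ} (F : Set (EuclideanSpace ℝ (Fin N))) : ℕ :=
  Module.finrank ℝ (vectorSpan ℝ F)

/-- `f_k(P)`: the number of `k`-dimensional faces of `P`. -/
noncomputable def f {N : ℕ} (k : ℕ) (P : Set (EuclideanSpace ℝ (Fin N))) : ℕ :=
  {F | F ∈ Faces P ∧ dim F = k}.ncard

/-- The unit cube `[0,1]^m`. -/
def cube (m : ℕ) : Set (EuclideanSpace ℝ (Fin m)) := {x | ∀ i, 0 ≤ x i ∧ x i ≤ 1}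

/-- Combinatorial equivalence: there is an inclusion-preserving bijection (in both directions)
between the faces of `P` and the faces of `Q`. -/
def CombEquiv {N M : ℕ} (P : Set (EuclideanSpace ℝ (Fin N))) (Q : Set (EuclideanSpace ℝ (Fin M))) :
    Prop :=
  Nonempty ({F // F ∈ Faces P} ≃o {G // G ∈ Faces Q})

/-- `P` is a cubical `d`-polytope: the convex hull of finitely many points, of dimension `d`, all of
whose facets are combinatorially equivalent to the `(d - 1)`-dimensional cube. -/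
def IsCubicalPolytope {N : ℕ} (d : ℕ) (P : Set (EuclideanSpace ℝ (Fin N))) : Prop :=
  P.Nonempty ∧ dim P = d ∧ (∃ V : Set (EuclideanSpace ℝ (Fin N)), V.Finite ∧ P = convexHull ℝ V) ∧
    ∀ F ∈ Faces P, dim F = d - 1 → CombEquiv F (cube (d - 1))

/-- The lower bound conjecture for cubical polytopes (Jockusch 1993), all `d ≥ 1`, all ambient
spaces `ℝ^N`. -/
theorem result (N d : ℕ) (hd : 1 ≤ d) (P : Set (EuclideanSpace ℝ (Fin N)))
    (hP : IsCubicalPolytope d P) :
    (∀ k : ℕ, 1 ≤ k → k + 2 ≤ d →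
      ((d.choose k : ℝ) + ((d - 1).choose (k - 1) : ℝ)) / 2 ^ k * (f 0 P : ℝ)
          - ((d - 1).choose (k - 1) : ℝ) * 2 ^ (d - k) ≤ (f k P : ℝ)) ∧
      (2 * (d : ℝ) - 2) / 2 ^ (d - 1) * (f 0 P : ℝ) - (2 * (d : ℝ) - 4) ≤ (f (d - 1) P : ℝ) :=
  Pool.Agent.CubOwn.main N d P hd ⟨⟨hP.1, hP.2.1, hP.2.2.1⟩, hP.2.2.2⟩

end Pool.Agent.Results.MP_ab51a6_co.CubicalLowerBounds
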